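import Pool.Agent.Helper4.CI.Goals

/-!
# Functions on nondegenerate complete intersections: packet R4

The heights with respect to the fan `Φ` and with respect to the scaled fan `Φ'`.
-/

namespace Mono.CI.R4

open Finset Mono Mono.CI

variable {N k : ℕ}

theorem lift_nat (c : Option (Fin k)) (u : Fin N → ℤ) (j : Fin k) :
    lift c u (Fin.natAdd N j) = ind c j := by
  simp [lift]

theorem psiRel (h2 : StarColour) (h3 : ScaleRel) : PsiRel := by
  classical
  intro N k A b L b' Z Φ' Φ hT F hF hnone w
  obtain ⟨t, ht, htF⟩ := hnone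
  have hstar : ∀ j : Fin k, (Pi.single (Fin.natAdd N j) 1 : Fin (N + k) → ℤ) ∉ F :=
    fun j => h2 N k A b L b' Z Φ' Φ hT F hF t ht htF j
  obtain ⟨hinj, -, -, hZ, hdis, hH, -, -, -, hcrd, -⟩ := h3 N k A b L b' Z Φ' Φ hT
  have hFv : F ⊆ Φ.vert := Φ.mx_sub F hF
  have hL0 : (L : ℝ) ≠ 0 := by
    have := hT.two_le
    have h : L ≠ 0 := by omega
    exact_mod_cast h
  -- the shape of the elements of `F`
  have hshape : ∀ u ∈ F, (u ∈ Z ∧ ∀ j, u (Fin.natAdd N j) = 0) ∨
      (u ∉ Z ∧ u ∈ cay A univ ∧ ∃ c, ∀ j, u (Fin.natAdd N j) = ind c j) := by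
    intro u hu
    by_cases hz : u ∈ Z
    · left
      refine ⟨hz, fun j => ?_⟩
      obtain ⟨i, hi⟩ := hT.tri.2.2.2.2.2.1.2.1 u hz
      by_contra hne
      rw [hi] at hne
      have hij : i = Fin.natAdd N j := by
        by_contra hcon
        exact hne (Pi.single_eq_of_ne (fun h => hcon h.symm) _)
      rw [hij] at hi
      exact hstar j (hi ▸ hu)
    · right
      have h1 : u ∈ cay A univ := by
        have := hFv hu
        rw [hT.vert, Finset.mem_union] at this
        rcases this with h | h
        · exact h
        · exact absurd h hz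
      refine ⟨hz, h1, ?_⟩
      unfold cay at h1
      rw [Finset.mem_biUnion] at h1
      obtain ⟨c, -, hc⟩ := h1
      rw [Finset.mem_image] at hc
      obtain ⟨v, -, rfl⟩ := hc
      exact ⟨c, fun j => lift_nat c v j⟩
  have hsum := sum_crd (Φ.mx_indep F hF) (Φ.mx_card F hF) w
  -- second claim
  have hsecond : ∀ j, ∑ u ∈ (F \ Z).filter
      (fun u => ∀ i, u (Fin.natAdd N i) = ind (some j) i), crd F w u =
      w (Fin.natAdd N j) := by
    intro j
    have h1 : w (Fin.natAdd N j) = ∑ u ∈ F, crd F w u * (u (Fin.natAdd N j) : ℝ) := by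
      conv_lhs => rw [← hsum]
      rw [Finset.sum_apply]
      refine Finset.sum_congr rfl fun u _ => ?_
      simp
    rw [h1, Finset.sum_filter]
    have h4 : ∑ u ∈ F \ Z, (if (∀ i, u (Fin.natAdd N i) = ind (some j) i) then crd F w u else 0) =
        ∑ u ∈ F \ Z, crd F w u * (u (Fin.natAdd N j) : ℝ) := by
      refine Finset.sum_congr rfl fun u hu => ?_
      rw [Finset.mem_sdiff] at hu
      rcases hshape u hu.1 with h | ⟨-, -, c, hc⟩
      · exact absurd h.1 hu.2
      · by_cases hcj : c = some j
        · subst hcj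
          rw [if_pos hc, hc j]
          simp [ind]
        · rw [if_neg, hc j]
          · simp [ind, hcj]
          · intro hall
            have h5 := hall j
            rw [hc j] at h5
            simp [ind, hcj] at h5
    rw [h4]
    refine Finset.sum_subset Finset.sdiff_subset fun u hu hnu => ?_
    have huZ : u ∈ Z := by
      by_contra hcon
      exact hnu (Finset.mem_sdiff.2 ⟨hu, hcon⟩)
    rcases hshape u hu with h | h
    · rw [h.2 j]; simp
    · exact absurd huZ h.1
  refine ⟨?_, hsecond⟩
  -- the image of `F \ Z`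
  have himg : F.image (up L (Hset A Z)) \ Z = (F \ Z).image (up L (Hset A Z)) := by
    ext x
    simp only [Finset.mem_sdiff, Finset.mem_image]
    constructor
    · rintro ⟨⟨u, hu, rfl⟩, hx⟩
      exact ⟨u, ⟨hu, fun h => hx ((hZ u (hFv hu)).2 h)⟩, rfl⟩
    · rintro ⟨u, ⟨hu, hz⟩, rfl⟩
      exact ⟨⟨u, hu, rfl⟩, fun h => hz ((hZ u (hFv hu)).1 h)⟩
  have hterm : ∀ u ∈ F \ Z, crd (F.image (up L (Hset A Z))) w (up L (Hset A Z) u) =
      (if u ∈ Hset A Z then 0 else crd F w u / L) +
      ∑ j, (if (∀ i, u (Fin.natAdd N i) = ind (some j) i) then crd F w u else 0) := by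
    intro u hu
    rw [Finset.mem_sdiff] at hu
    have hc := hcrd F hF w u hu.1
    rcases hshape u hu.1 with h | ⟨-, hcay, c, hcol⟩
    · exact absurd h.1 hu.2
    · have hHu := hH u hcay
      cases c with
      | none =>
        have h0 : ∀ j, u (Fin.natAdd N j) = 0 := fun j => by rw [hcol j]; simp [ind]
        have hnH : u ∉ Hset A Z := hHu.2 h0
        rw [if_neg hnH] at hc
        rw [if_neg hnH, hc]
        have h6 : ∑ j, (if (∀ i, u (Fin.natAdd N i) = ind (some j) i) then
            (L : ℝ) * crd (F.image (up L (Hset A Z))) w (up L (Hset A Z) u) else 0) = 0 := by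
          refine Finset.sum_eq_zero fun j _ => ?_
          rw [if_neg]
          intro hall
          have := hall j
          rw [h0 j] at this
          simp [ind] at this
        rw [h6]
        field_simp
        ring
      | some j₀ =>
        have hmH : u ∈ Hset A Z := by
          by_contra hcon
          have := hHu.1 hcon j₀
          rw [hcol j₀] at this
          simp [ind] at this
        rw [if_pos hmH] at hc
        rw [if_pos hmH, Finset.sum_eq_single j₀]
        · rw [if_pos hcol, hc]; ring
        · intro j _ hj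
          rw [if_neg]
          intro hall
          have := hall j
          rw [hcol j] at this
          simp [ind, Ne.symm hj] at this
        · intro h; exact absurd (Finset.mem_univ _) h
  unfold psi
  rw [himg, Finset.sum_image]
  · rw [Finset.sum_congr rfl hterm, Finset.sum_add_distrib, Finset.sum_comm]
    congr 1
    · rw [Finset.sum_div]
      have h7 : F \ Hset A Z ⊆ F \ Z := by
        intro u hu
        rw [Finset.mem_sdiff] at hu ⊢
        refine ⟨hu.1, fun h => hu.2 ?_⟩
        unfold Hset
        exact Finset.mem_union_left _ h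
      rw [← Finset.sum_subset h7]
      · refine Finset.sum_congr rfl fun u hu => ?_
        rw [Finset.mem_sdiff] at hu
        rw [if_neg hu.2]
      · intro u hu hnu
        rw [if_pos]
        by_contra hcon
        exact hnu (Finset.mem_sdiff.2 ⟨(Finset.mem_sdiff.1 hu).1, hcon⟩)
    · refine Finset.sum_congr rfl fun j _ => ?_
      rw [← hsecond j, Finset.sum_filter]
  · intro u hu v hv huv
    exact hinj u (hFv (Finset.mem_sdiff.1 hu).1) v (hFv (Finset.mem_sdiff.1 hv).1) huv

end Mono.CI.R4
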